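import Mathlib

/-!
# Lower bound for the discrepancy of Frobenius angles

The Frobenius traces `a_p` are integers. Hence no angle `x_k` with `k ≤ K` lies in the interval
`[1/2 - δ, 1/2)` with `δ = 1 / (2 π √p_K)`, and the discrepancy of the first `K` consecutive
`s`-tuples is at least a constant times `(K log K) ^ (-1/2)`.
-/

set_option autoImplicit false

namespace Pool.Agent.Results.MP_29be01_nt.HoleLowerBound

open Real

/-- the primes in increasing order: `pr 0 = 2`, `pr 1 = 3`, … -/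
noncomputable def pr (k : ℕ) : ℕ := Nat.nth Nat.Prime k

/-- Sato–Tate measure of the interval `[a, b)` -/
noncomputable def muST (a b : ℝ) : ℝ := ∫ u in a..b, 2 * sin (π * u) ^ 2

/-- the number of `k < K` with `(x k, …, x (k + s - 1))` in the box `∏ [a i, b i)` -/
noncomputable def cnt (x : ℕ → ℝ) (s K : ℕ) (a b : Fin s → ℝ) : ℕ :=
  Nat.card {k : ℕ | k < K ∧ ∀ i : Fin s, x (k + i) ∈ Set.Ico (a i) (b i)}

/-- the extreme discrepancy of the first `K` consecutive `s`-tuples with respect to the `s`-fold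
product of the Sato–Tate measure -/
noncomputable def disc (x : ℕ → ℝ) (s K : ℕ) : ℝ :=
  sSup {d : ℝ | ∃ a b : Fin s → ℝ, (∀ i, 0 ≤ a i ∧ a i ≤ b i ∧ b i ≤ 1) ∧
    d = |(cnt x s K a b : ℝ) / K - ∏ i, muST (a i) (b i)|}

theorem muST_eq (a b : ℝ) :
    muST a b = (b - a) - (sin (2 * π * b) - sin (2 * π * a)) / (2 * π) := by
  unfold muST
  have h : ∀ u : ℝ, 2 * sin (π * u) ^ 2 = 1 - cos (2 * π * u) := by
    intro u
    have := cos_sq (π * u)
    have h2 := sin_sq_add_cos_sq (π * u)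
    have h3 : 2 * (π * u) = 2 * π * u := by ring
    rw [h3] at this
    nlinarith
  have hderiv : ∀ u ∈ Set.uIcc a b, HasDerivAt
      (fun u => u - sin (2 * π * u) / (2 * π)) (2 * sin (π * u) ^ 2) u := by
    intro u _
    rw [h]
    have h1 : HasDerivAt (fun u : ℝ => 2 * π * u) (2 * π) u := by
      simpa using (hasDerivAt_id u).const_mul (2 * π)
    have h2 := (h1.sin).div_const (2 * π)
    have h3 := (hasDerivAt_id u).sub h2
    have h4 : (1 : ℝ) - cos (2 * π * u) * (2 * π) / (2 * π) = 1 - cos (2 * π * u) := by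
      have : π ≠ 0 := pi_ne_zero
      field_simp
    rw [h4] at h3
    exact h3
  rw [intervalIntegral.integral_eq_sub_of_hasDerivAt hderiv]
  · ring
  · apply Continuous.intervalIntegrable
    fun_prop

theorem muST_nonneg {a b : ℝ} (h : a ≤ b) : 0 ≤ muST a b := by
  unfold muST
  exact intervalIntegral.integral_nonneg h fun u _ => by positivity

theorem muST_unit : muST 0 1 = 1 := by
  rw [muST_eq]
  simp

theorem muST_le_one {a b : ℝ} (h0 : 0 ≤ a) (hab : a ≤ b) (hb : b ≤ 1) : muST a b ≤ 1 := by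
  rw [← muST_unit]
  unfold muST
  apply intervalIntegral.integral_mono_interval h0 hab hb
  · exact Filter.Eventually.of_forall fun u => by positivity
  · apply Continuous.intervalIntegrable
    fun_prop

theorem muST_hole {δ : ℝ} (h0 : 0 < δ) (h1 : π * δ ≤ 1 / 2) :
    3 / 2 * δ ≤ muST (1 / 2 - δ) (1 / 2) := by
  unfold muST
  have hc : ∫ _u in (1 / 2 - δ)..(1 / 2 : ℝ), (3 / 2 : ℝ) = 3 / 2 * δ := by
    rw [intervalIntegral.integral_const]; simp; ring
  rw [← hc]
  apply intervalIntegral.integral_mono_on (by linarith)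
  · exact continuous_const.intervalIntegrable _ _
  · apply Continuous.intervalIntegrable
    fun_prop
  · intro u hu
    have h2 : sin (π * u) = cos (π * (1 / 2 - u)) := by
      rw [← cos_pi_div_two_sub]; ring_nf
    rw [h2]
    have h3 : 0 ≤ 1 / 2 - u := by linarith [hu.2]
    have h4 : 1 / 2 - u ≤ δ := by linarith [hu.1]
    have h5 : π * (1 / 2 - u) ≤ 1 / 2 := le_trans (by gcongr) h1
    have h6 : 0 ≤ π * (1 / 2 - u) := by positivity
    have h7 := sin_le h6
    have h8 : 0 ≤ sin (π * (1 / 2 - u)) :=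
      sin_nonneg_of_nonneg_of_le_pi h6 (by linarith [pi_gt_three])
    have h9 := sin_sq_add_cos_sq (π * (1 / 2 - u))
    nlinarith

/-- the number of primes up to the `(k+1)`-st prime -/
theorem pi_pr (k : ℕ) : Nat.primeCounting (pr k) = k + 1 := by
  unfold pr
  have h := Nat.primeCounting'_nth_eq (k + 1)
  have h2 : Nat.primeCounting (Nat.nth Nat.Prime k) =
      Nat.primeCounting' (Nat.nth Nat.Prime k + 1) := rfl
  rw [h2, Nat.primeCounting', Nat.count_succ, Nat.count_nth_of_infinite Nat.infinite_setOfPred_prime]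
  simp [Nat.prime_nth_prime]

theorem pr_two_le (k : ℕ) : 2 ≤ pr k := (Nat.prime_nth_prime k).two_le

theorem pr_mono {k l : ℕ} (h : k ≤ l) : pr k ≤ pr l :=
  (Nat.nth_monotone Nat.infinite_setOfPred_prime) h

theorem pr_le (k : ℕ) : (pr k : ℝ) ≤ 64 * ((k + 1 : ℕ) * log ((k + 1 : ℕ) + 1)) := by
  have hP := pr_two_le k
  have hπ := Chebyshev.pi_ge (pr k)
  rw [pi_pr] at hπ
  set P : ℝ := (pr k : ℝ) with hPdef
  have hP2 : (2 : ℝ) ≤ P := by rw [hPdef]; exact_mod_cast hP
  set K : ℝ := ((k + 1 : ℕ) : ℝ) with hK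
  have hK1 : (1 : ℝ) ≤ K := by rw [hK]; exact_mod_cast Nat.succ_le_succ (Nat.zero_le k)
  have hlogP : 0 < log P := log_pos (by linarith)
  rw [div_le_iff₀ hlogP] at hπ
  have hl2 : (0.6931471803 : ℝ) < log 2 := log_two_gt_d9
  have hl2' : log 2 < (0.6931471808 : ℝ) := log_two_lt_d9
  have h1 : P / 8 ≤ P * log 2 - log (P + 1) := by
    have e1 : log ((P + 1) / 3) ≤ (P + 1) / 3 - 1 := log_le_sub_one_of_pos (by linarith)
    rw [log_div (by linarith) (by norm_num)] at e1
    have e2 : log ((9 : ℝ) / 8) ≤ 9 / 8 - 1 := log_le_sub_one_of_pos (by norm_num)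
    rw [log_div (by norm_num) (by norm_num)] at e2
    have e3 : log (9 : ℝ) = 2 * log 3 := by
      rw [show (9 : ℝ) = 3 ^ 2 by norm_num, log_pow]; norm_num
    have e4 : log (8 : ℝ) = 3 * log 2 := by
      rw [show (8 : ℝ) = 2 ^ 3 by norm_num, log_pow]; norm_num
    rw [e3, e4] at e2
    nlinarith
  have h2 : P ≤ 8 * (K * log P) := by linarith
  have hs0 : 0 < √P := sqrt_pos.2 (by linarith)
  have hsq : √P * √P = P := mul_self_sqrt (by linarith)
  have h3 : log P ≤ √P := by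
    have e1 : log (√P / 2) ≤ √P / 2 - 1 := log_le_sub_one_of_pos (by positivity)
    rw [log_div hs0.ne' (by norm_num), log_sqrt (by linarith)] at e1
    linarith
  have h4 : √P ≤ 8 * K := by
    have : √P * √P ≤ (8 * K) * √P := by
      rw [hsq]
      calc P ≤ 8 * (K * log P) := h2
        _ ≤ 8 * (K * √P) := by gcongr
        _ = 8 * K * √P := by ring
    exact le_of_mul_le_mul_right this hs0
  have h4' : P ≤ 64 * K ^ 2 := by
    rw [← hsq]; nlinarith
  have h5 : log P ≤ 8 * log (K + 1) := by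
    have e1 : log P ≤ log (64 * K ^ 2) := log_le_log (by linarith) h4'
    have e2 : log (64 * K ^ 2) = 6 * log 2 + 2 * log K := by
      rw [log_mul (by norm_num) (by positivity), log_pow,
        show (64 : ℝ) = 2 ^ 6 by norm_num, log_pow]
      norm_num
    have e3 : log K ≤ log (K + 1) := log_le_log (by linarith) (by linarith)
    have e4 : log 2 ≤ log (K + 1) := log_le_log (by norm_num) (by linarith)
    linarith
  calc P ≤ 8 * (K * log P) := h2
    _ ≤ 8 * (K * (8 * log (K + 1))) := by gcongr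
    _ = 64 * (K * log (K + 1)) := by ring

/-- no angle with index below `K` lies in the hole -/
theorem no_angle {x : ℕ → ℝ} (hx : ∀ k, x k ∈ Set.Icc (0 : ℝ) 1)
    (ha : ∀ k, ∃ m : ℤ, (m : ℝ) = 2 * √(pr k) * cos (π * x k)) {k l : ℕ} (hkl : k ≤ l) :
    x k ∉ Set.Ico (1 / 2 - 1 / (2 * π * √(pr l))) (1 / 2) := by
  intro hk
  obtain ⟨m, hm⟩ := ha k
  have hk0 : 0 < √(pr k : ℝ) := sqrt_pos.2 (by exact_mod_cast (by have := pr_two_le k; omega))
  have hl0 : 0 < √(pr l : ℝ) := sqrt_pos.2 (by exact_mod_cast (by have := pr_two_le l; omega))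
  have hle : √(pr k : ℝ) ≤ √(pr l : ℝ) := sqrt_le_sqrt (by exact_mod_cast pr_mono hkl)
  have hc : cos (π * x k) = sin (π * (1 / 2 - x k)) := by
    rw [← sin_pi_div_two_sub]; ring_nf
  have h1 : 0 < π * (1 / 2 - x k) := mul_pos pi_pos (by linarith [hk.2])
  have h2 : π * (1 / 2 - x k) ≤ 1 / (2 * √(pr l)) := by
    have : 1 / 2 - x k ≤ 1 / (2 * π * √(pr l)) := by linarith [hk.1]
    calc π * (1 / 2 - x k) ≤ π * (1 / (2 * π * √(pr l))) := by gcongr
      _ = 1 / (2 * √(pr l)) := by have := pi_ne_zero; field_simp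
  have h3 : sin (π * (1 / 2 - x k)) < 1 / (2 * √(pr l)) := lt_of_lt_of_le (sin_lt h1) h2
  have h4 : 0 < sin (π * (1 / 2 - x k)) := by
    apply sin_pos_of_pos_of_lt_pi h1
    have : π * (1 / 2 - x k) ≤ π * (1 / 2) := by
      have := (hx k).1
      gcongr
      linarith
    linarith [pi_pos]
  rw [hc] at hm
  have h5 : (0 : ℝ) < m := by rw [hm]; positivity
  have h6 : (m : ℝ) < 1 := by
    rw [hm]
    calc 2 * √(pr k) * sin (π * (1 / 2 - x k)) ≤ 2 * √(pr l) * sin (π * (1 / 2 - x k)) := by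
          gcongr
      _ < 2 * √(pr l) * (1 / (2 * √(pr l))) := by gcongr
      _ = 1 := by field_simp
  have h7 : (0 : ℤ) < m := by exact_mod_cast h5
  have h8 : m < (1 : ℤ) := by exact_mod_cast h6
  omega

theorem cnt_le (x : ℕ → ℝ) (s K : ℕ) (a b : Fin s → ℝ) : cnt x s K a b ≤ K := by
  unfold cnt
  have : {k : ℕ | k < K ∧ ∀ i : Fin s, x (k + i) ∈ Set.Ico (a i) (b i)} ⊆
      (Finset.range K : Set ℕ) := by
    intro k hk
    simpa using hk.1
  calc Nat.card {k : ℕ | k < K ∧ ∀ i : Fin s, x (k + i) ∈ Set.Ico (a i) (b i)}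
      ≤ Nat.card (Finset.range K : Set ℕ) :=
        Nat.card_mono (Finset.finite_toSet _) this
    _ = K := by simp

theorem disc_bdd (x : ℕ → ℝ) (s K : ℕ) :
    BddAbove {d : ℝ | ∃ a b : Fin s → ℝ, (∀ i, 0 ≤ a i ∧ a i ≤ b i ∧ b i ≤ 1) ∧
      d = |(cnt x s K a b : ℝ) / K - ∏ i, muST (a i) (b i)|} := by
  refine ⟨1, ?_⟩
  rintro d ⟨a, b, hab, rfl⟩
  have h1 : 0 ≤ (cnt x s K a b : ℝ) / K := by positivity
  have h2 : (cnt x s K a b : ℝ) / K ≤ 1 := by
    apply div_le_one_of_le₀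
    · exact_mod_cast cnt_le x s K a b
    · positivity
  have h3 : 0 ≤ ∏ i, muST (a i) (b i) :=
    Finset.prod_nonneg fun i _ => muST_nonneg (hab i).2.1
  have h4 : ∏ i, muST (a i) (b i) ≤ 1 :=
    Finset.prod_le_one (fun i _ => muST_nonneg (hab i).2.1)
      fun i _ => muST_le_one (hab i).1 (hab i).2.1 (hab i).2.2
  rw [abs_le]
  constructor <;> linarith

/-- **Lower bound.** Let `x_k ∈ [0,1]` be angles such that `2 √p_k cos (π x_k)` is an integer for
every `k` (by Hasse's theorem the Frobenius angles of an elliptic curve over `ℚ`, with the value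
`1/2` at the bad primes, are of this form). Then for all `s ≥ 1`, `K ≥ 1` the discrepancy of the
first `K` consecutive `s`-tuples is at least `1 / (40 √(K log (K + 1)))`. -/
theorem result (x : ℕ → ℝ) (hx : ∀ k, x k ∈ Set.Icc (0 : ℝ) 1)
    (ha : ∀ k, ∃ m : ℤ, (m : ℝ) = 2 * √(Nat.nth Nat.Prime k) * cos (π * x k))
    (s K : ℕ) (hs : 1 ≤ s) (hK : 1 ≤ K) :
    1 / (40 * √(K * log (K + 1))) ≤ disc x s K := by
  obtain ⟨l, rfl⟩ : ∃ l, K = l + 1 := ⟨K - 1, by omega⟩
  obtain ⟨r, rfl⟩ : ∃ r, s = r + 1 := ⟨s - 1, by omega⟩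
  set P : ℝ := (pr l : ℝ) with hPdef
  have hP2 : (2 : ℝ) ≤ P := by rw [hPdef]; exact_mod_cast pr_two_le l
  have hs0 : 0 < √P := sqrt_pos.2 (by linarith)
  set δ : ℝ := 1 / (2 * π * √P) with hδ
  have hδ0 : 0 < δ := by rw [hδ]; have := pi_pos; positivity
  have hsP : 1 ≤ √P := by
    rw [show (1 : ℝ) = √1 by simp]
    exact sqrt_le_sqrt (by linarith)
  have hπδ : π * δ ≤ 1 / 2 := by
    rw [hδ]
    have : π * (1 / (2 * π * √P)) = 1 / (2 * √P) := by have := pi_ne_zero; field_simp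
    rw [this]
    apply one_div_le_one_div_of_le (by norm_num)
    linarith
  have hδ2 : δ ≤ 1 / 2 := by nlinarith [pi_gt_three]
  let a : Fin (r + 1) → ℝ := Fin.cons (1 / 2 - δ) fun _ => 0
  let b : Fin (r + 1) → ℝ := Fin.cons (1 / 2) fun _ => 1
  have hcnt : cnt x (r + 1) (l + 1) a b = 0 := by
    unfold cnt
    rw [Nat.card_eq_zero]
    left
    constructor
    rintro ⟨k, hk1, hk2⟩
    have := hk2 0
    simp only [a, b, Fin.cons_zero, Fin.val_zero, add_zero] at this
    exact no_angle hx ha (Nat.lt_succ_iff.1 hk1) this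
  have hprod : ∏ i, muST (a i) (b i) = muST (1 / 2 - δ) (1 / 2) := by
    rw [Fin.prod_univ_succ]
    simp [a, b, muST_unit]
  have hmem : muST (1 / 2 - δ) (1 / 2) ∈ {d : ℝ | ∃ a b : Fin (r + 1) → ℝ,
      (∀ i, 0 ≤ a i ∧ a i ≤ b i ∧ b i ≤ 1) ∧
      d = |(cnt x (r + 1) (l + 1) a b : ℝ) / ((l + 1 : ℕ) : ℝ) - ∏ i, muST (a i) (b i)|} := by
    refine ⟨a, b, ?_, ?_⟩
    · intro i
      refine Fin.cases ?_ (fun j => ?_) i
      · simp only [a, b, Fin.cons_zero]
        refine ⟨by linarith, by linarith, by norm_num⟩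
      · simp [a, b]
    · rw [hcnt, hprod]
      simp only [CharP.cast_eq_zero, zero_div, zero_sub, abs_neg]
      rw [abs_of_nonneg (muST_nonneg (by linarith))]
  have hle : muST (1 / 2 - δ) (1 / 2) ≤ disc x (r + 1) (l + 1) :=
    le_csSup (disc_bdd x (r + 1) (l + 1)) hmem
  refine le_trans ?_ hle
  refine le_trans ?_ (muST_hole hδ0 hπδ)
  have hPle := pr_le l
  rw [← hPdef] at hPle
  have hsq : √P ≤ 8 * √(((l + 1 : ℕ) : ℝ) * log (((l + 1 : ℕ) : ℝ) + 1)) := by
    have : (8 : ℝ) = √64 := by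
      rw [show (64 : ℝ) = 8 ^ 2 by norm_num, sqrt_sq (by norm_num)]
    rw [this, ← sqrt_mul (by norm_num)]
    exact sqrt_le_sqrt hPle
  have h1 : 1 / (40 * √(((l + 1 : ℕ) : ℝ) * log (((l + 1 : ℕ) : ℝ) + 1))) ≤ 1 / (5 * √P) := by
    apply one_div_le_one_div_of_le (by positivity)
    linarith
  refine h1.trans ?_
  rw [hδ]
  have hπ : π < 3.15 := pi_lt_d2
  rw [div_le_iff₀ (by positivity)]
  have : 3 / 2 * (1 / (2 * π * √P)) * (5 * √P) = 15 / (4 * π) := by
    have := pi_ne_zero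
    field_simp
    norm_num
  rw [this, le_div_iff₀ (by positivity)]
  linarith

end Pool.Agent.Results.MP_29be01_nt.HoleLowerBound
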